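import Pool.Agent.DC.HOMEXT

/-!
# Frame of the disproof of `TiltApprox` (MP_db3ab1_ag): an integrality criterion by points

`B` is a domain, integral over the polynomial ring `L[z]`, where `L` is a field with valuation ring
`V`. If the value of `b ∈ B` at every point of `B` with values in an algebraically closed extension
`(Ω, W)` of `(L, V)` at which the `z i` are in `W` is in `W`, then `b` is integral over `V[z]`.
-/

set_option autoImplicit false

noncomputable section

namespace Pool.Agent.DIF

open Pool.Agent.DC

universe u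

/-- the residue field of a valuation ring of an algebraically closed field is infinite -/
theorem residue_infinite {Ω : Type u} [Field Ω] [IsAlgClosed Ω] (W : ValuationSubring Ω) :
    Infinite (IsLocalRing.ResidueField W) := by
  by_contra hfin
  rw [not_infinite_iff_finite] at hfin
  have := Fintype.ofFinite (IsLocalRing.ResidueField W)
  set q := Fintype.card (IsLocalRing.ResidueField W) with hq
  have hq1 : 1 < q := Fintype.one_lt_card
  -- the polynomial `X ^ q - X - 1`
  let f : Polynomial W := Polynomial.X ^ q - Polynomial.X - 1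
  have hdeg : (Polynomial.X + 1 : Polynomial W).degree < (q : WithBot ℕ) := by
    refine lt_of_le_of_lt (Polynomial.degree_add_le _ _) ?_
    rw [Polynomial.degree_X, Polynomial.degree_one, max_eq_left (by norm_num)]
    exact_mod_cast hq1
  have hm : f.Monic := by
    have : f = Polynomial.X ^ q - (Polynomial.X + 1) := by
      simp only [f]
      ring
    rw [this]
    exact Polynomial.monic_X_pow_sub hdeg
  have hd : (f.map (algebraMap W Ω)).degree ≠ 0 := by
    rw [hm.degree_map]
    have : f.degree = (q : WithBot ℕ) := by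
      have e : f = Polynomial.X ^ q - (Polynomial.X + 1) := by
        simp only [f]
        ring
      rw [e, Polynomial.degree_sub_eq_left_of_degree_lt]
      · exact Polynomial.degree_X_pow q
      · rw [Polynomial.degree_X_pow]
        exact hdeg
    rw [this]
    intro h
    have : q = 0 := by exact_mod_cast h
    omega
  obtain ⟨x, hx⟩ := IsAlgClosed.exists_root _ hd
  have hxi : IsIntegral W x := ⟨f, hm, by rwa [Polynomial.IsRoot, Polynomial.eval_map] at hx⟩
  obtain ⟨y, rfl⟩ := IsIntegrallyClosed.isIntegral_iff.1 hxi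
  have hy : f.eval y = 0 := by
    have h1 : algebraMap W Ω (f.eval y) = 0 := by
      rw [Polynomial.IsRoot, Polynomial.eval_map, Polynomial.eval₂_at_apply] at hx
      exact hx
    exact (map_eq_zero_iff _ (IsFractionRing.injective W Ω)).1 h1
  have h2 := congrArg (IsLocalRing.residue W) hy
  simp only [f, Polynomial.eval_sub, Polynomial.eval_pow, Polynomial.eval_X, Polynomial.eval_one,
    map_sub, map_pow, map_one, map_zero] at h2
  rw [FiniteField.pow_card (IsLocalRing.residue W y), sub_self, zero_sub] at h2
  exact one_ne_zero (neg_eq_zero.1 h2)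

/-- the Gauss lemma: a polynomial with values in `W` on `W^m` has its coefficients in `V` -/
theorem coeff_mem_of_eval_mem {L Ω : Type u} [Field L] [Field Ω] [IsAlgClosed Ω]
    (V : ValuationSubring L) (j : L →+* Ω) (W : ValuationSubring Ω) (hW : ∀ x, j x ∈ W ↔ x ∈ V)
    {m : ℕ} (c : MvPolynomial (Fin m) L)
    (hc : ∀ w : Fin m → Ω, (∀ i, w i ∈ W) → MvPolynomial.eval₂ j w c ∈ W) (e : Fin m →₀ ℕ) :
    c.coeff e ∈ V := by
  classical
  by_contra he
  have hne : c.support.Nonempty := by
    refine ⟨e, ?_⟩
    rw [MvPolynomial.mem_support_iff]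
    intro h0
    rw [h0] at he
    exact he V.zero_mem
  obtain ⟨e₀, he₀, hmax⟩ := Finset.exists_max_image c.support (fun e => V.valuation (c.coeff e)) hne
  set a := c.coeff e₀ with ha
  have ha0 : a ≠ 0 := MvPolynomial.mem_support_iff.1 he₀
  have hmax' : ∀ e, V.valuation (c.coeff e) ≤ V.valuation a := by
    intro e
    by_cases h : e ∈ c.support
    · exact hmax e h
    · rw [MvPolynomial.notMem_support_iff.1 h, map_zero]
      exact zero_le
  have haV : a ∉ V := by
    intro h
    rw [← V.valuation_le_one_iff] at h he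
    exact he (le_trans (hmax' e) h)
  have hcoef : ∀ e, c.coeff e / a ∈ V := by
    intro e
    rw [← V.valuation_le_one_iff, map_div₀]
    exact div_le_one_of_le₀ (hmax' e) zero_le
  have hr : MvPolynomial.C a⁻¹ * c ∈ (MvPolynomial.map V.subtype : MvPolynomial (Fin m) V →+* _).range := by
    rw [RingHom.mem_range]
    have := (MvPolynomial.mem_range_map_iff_coeffs_subset (f := V.subtype) (x := MvPolynomial.C a⁻¹ * c)).2 (by
      intro y hy
      rw [MvPolynomial.coeffs] at hy
      simp only [Finset.coe_image, Set.mem_image, Finset.mem_coe] at hy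
      obtain ⟨e, -, rfl⟩ := hy
      rw [MvPolynomial.coeff_C_mul]
      refine ⟨⟨c.coeff e / a, hcoef e⟩, ?_⟩
      show c.coeff e / a = a⁻¹ * c.coeff e
      rw [div_eq_inv_mul])
    exact this
  obtain ⟨d, hd⟩ := RingHom.mem_range.1 hr
  -- the embedding of the valuation rings
  let i : V →+* W := (j.comp V.subtype).codRestrict W.toSubring fun x => (hW x).2 x.2
  have hi : ∀ x : V, ((i x : W) : Ω) = j x := fun x => rfl
  let ρ : V →+* IsLocalRing.ResidueField W := (IsLocalRing.residue W).comp i
  have hdc : d.coeff e₀ = 1 := by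
    have h1 := congrArg (fun P => MvPolynomial.coeff e₀ P) hd
    simp only [MvPolynomial.coeff_map, MvPolynomial.coeff_C_mul] at h1
    rw [← ha, inv_mul_cancel₀ ha0] at h1
    exact Subtype.ext h1
  have hne : MvPolynomial.map ρ d ≠ 0 := by
    intro h0
    have h1 := congrArg (fun P => MvPolynomial.coeff e₀ P) h0
    simp only [MvPolynomial.coeff_map, hdc, map_one, MvPolynomial.coeff_zero] at h1
    exact one_ne_zero h1
  have := residue_infinite W
  obtain ⟨wb, hwb⟩ : ∃ wb : Fin m → IsLocalRing.ResidueField W,
      MvPolynomial.eval wb (MvPolynomial.map ρ d) ≠ 0 := by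
    by_contra hcon
    push Not at hcon
    exact hne (MvPolynomial.funext fun w => by rw [hcon w, map_zero])
  choose w hw using fun t => IsLocalRing.residue_surjective (R := W) (wb t)
  have h1 : IsLocalRing.residue W (MvPolynomial.eval₂ i w d) ≠ 0 := by
    have : IsLocalRing.residue W (MvPolynomial.eval₂ i w d) =
        MvPolynomial.eval wb (MvPolynomial.map ρ d) := by
      rw [MvPolynomial.eval_map]
      have h := MvPolynomial.eval₂_comp_left (IsLocalRing.residue W) i w d
      rw [h]
      congr 1
      funext t
      exact hw t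
    rw [this]
    exact hwb
  have hu : IsUnit (MvPolynomial.eval₂ i w d) := by
    by_contra hu
    exact h1 ((IsLocalRing.residue_eq_zero_iff _).2 hu)
  have h2 : ((MvPolynomial.eval₂ i w d : W) : Ω) = j a⁻¹ * MvPolynomial.eval₂ j (fun t => (w t : Ω)) c := by
    have e1 : ((MvPolynomial.eval₂ i w d : W) : Ω) =
        MvPolynomial.eval₂ (W.subtype.comp i) (fun t => (w t : Ω)) d := by
      exact MvPolynomial.eval₂_comp_left W.subtype i w d
    have e2 : W.subtype.comp i = j.comp V.subtype := rfl
    rw [e1, e2, ← MvPolynomial.eval₂_map, hd, MvPolynomial.eval₂_mul, MvPolynomial.eval₂_C]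
  obtain ⟨u, hu'⟩ := hu
  have hj0 : j a ≠ 0 := (map_ne_zero j).2 ha0
  have h3 : j a ∈ W := by
    have h4 : j a = MvPolynomial.eval₂ j (fun t => (w t : Ω)) c * (((u⁻¹ : Wˣ) : W) : Ω) := by
      have h5 : ((u : W) : Ω) * (((u⁻¹ : Wˣ) : W) : Ω) = 1 := by
        have := congrArg (fun x : W => (x : Ω)) u.mul_inv
        exact this
      rw [hu', h2, map_inv₀] at h5
      field_simp at h5
      rw [h5]
    rw [h4]
    exact W.mul_mem _ _ (hc _ fun t => (w t).2) ((u⁻¹ : Wˣ) : W).2
  exact haV ((hW a).1 h3)

/-- the integrality criterion -/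
theorem integral_of_points {L Ω B : Type u} [Field L] [Field Ω] [IsAlgClosed Ω] [CommRing B] [IsDomain B]
    (V : ValuationSubring L) (j : L →+* Ω) (W : ValuationSubring Ω) (hW : ∀ x, j x ∈ W ↔ x ∈ V)
    (α : L →+* B) {m : ℕ} (z : Fin m → B)
    (hinj : Function.Injective (MvPolynomial.eval₂Hom α z))
    (hint : (MvPolynomial.eval₂Hom α z).IsIntegral) (b : B)
    (hb : ∀ y : B →+* Ω, y.comp α = j → (∀ i, y (z i) ∈ W) → y b ∈ W) :
    (MvPolynomial.eval₂Hom (α.comp V.subtype) z).IsIntegralElem b := by
  classical
  let A := MvPolynomial (Fin m) L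
  let : Algebra A B := (MvPolynomial.eval₂Hom α z).toAlgebra
  have halg : ∀ a : A, algebraMap A B a = MvPolynomial.eval₂Hom α z a := fun _ => rfl
  have : Algebra.IsIntegral A B := ⟨fun x => hint x⟩
  have : FaithfulSMul A B := (faithfulSMul_iff_algebraMap_injective _ _).2 hinj
  have hbi : IsIntegral A b := Algebra.IsIntegral.isIntegral b
  set f := minpoly A b with hf
  have hfm : f.Monic := minpoly.monic hbi
  -- all coefficients of `f` have values in `W` on `W^m`
  have hval : ∀ (t : ℕ) (w : Fin m → Ω), (∀ i, w i ∈ W) → MvPolynomial.eval₂ j w (f.coeff t) ∈ W := by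
    intro t w hw
    let φ : A →+* Ω := MvPolynomial.eval₂Hom j w
    have hlift : f.map φ ∈ Polynomial.lifts W.subtype := by
      refine Polynomial.Splits.mem_lift_of_roots_mem_range (IsAlgClosed.splits _) (hfm.map _) W.subtype ?_
      intro β hβ
      have hβ' : Polynomial.eval₂ φ β f = 0 := by
        have := Polynomial.isRoot_of_mem_roots hβ
        rwa [Polynomial.IsRoot, Polynomial.eval_map] at this
      -- the ring `A[b]`
      let ψ : AdjoinRoot f →+* Ω := AdjoinRoot.lift φ β hβ'
      let i : AdjoinRoot f →+* B :=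
        (Algebra.adjoin A ({b} : Set B)).val.toRingHom.comp (AdjoinRoot.Minpoly.toAdjoin A b).toRingHom
      have hiinj : Function.Injective i := by
        intro a a' h
        have h1 : (AdjoinRoot.Minpoly.toAdjoin A b) a = (AdjoinRoot.Minpoly.toAdjoin A b) a' :=
          Subtype.ext h
        exact minpoly.ToAdjoin.injective hbi h1
      have hiof : ∀ a : A, i (AdjoinRoot.of f a) = algebraMap A B a := by
        intro a
        show (((AdjoinRoot.Minpoly.toAdjoin A b) (algebraMap A (AdjoinRoot f) a) :
          Algebra.adjoin A ({b} : Set B)) : B) = _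
        rw [AlgHom.commutes]
        rfl
      have hiX : i (AdjoinRoot.root f) = b := AdjoinRoot.Minpoly.coe_toAdjoin_mk_X
      have hiint : i.IsIntegral := by
        intro x
        obtain ⟨g, hg, hgx⟩ := hint x
        refine ⟨g.map (AdjoinRoot.of f), hg.map _, ?_⟩
        rw [Polynomial.eval₂_map]
        have : i.comp (AdjoinRoot.of f) = MvPolynomial.eval₂Hom α z := RingHom.ext fun a => hiof a
        rw [this]
        exact hgx
      obtain ⟨y, hy⟩ := homext_proof (AdjoinRoot f) B Ω i hiinj hiint ψ
      have hy1 : ∀ a : A, y (algebraMap A B a) = φ a := by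
        intro a
        rw [← hiof a, ← RingHom.comp_apply, hy]
        exact AdjoinRoot.lift_of hβ'
      have hyb : y b = β := by
        rw [← hiX, ← RingHom.comp_apply, hy]
        exact AdjoinRoot.lift_root hβ'
      have h1 : y.comp α = j := by
        ext x
        have := hy1 (MvPolynomial.C x)
        rw [halg, MvPolynomial.coe_eval₂Hom, MvPolynomial.eval₂_C] at this
        rw [RingHom.comp_apply, this]
        exact MvPolynomial.eval₂_C _ _ _
      have h2 : ∀ i, y (z i) ∈ W := by
        intro i
        have := hy1 (MvPolynomial.X i)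
        rw [halg, MvPolynomial.coe_eval₂Hom, MvPolynomial.eval₂_X] at this
        rw [this]
        have e : φ (MvPolynomial.X i) = w i := MvPolynomial.eval₂_X _ _ _
        rw [e]
        exact hw i
      have h3 := hb y h1 h2
      rw [hyb] at h3
      exact ⟨⟨β, h3⟩, rfl⟩
    rw [Polynomial.lifts_iff_coeff_lifts] at hlift
    obtain ⟨x, hx⟩ := hlift t
    rw [Polynomial.coeff_map] at hx
    have : MvPolynomial.eval₂ j w (f.coeff t) = x := hx.symm
    rw [this]
    exact x.2
  have hcoef : ∀ t e, (f.coeff t).coeff e ∈ V := fun t e =>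
    coeff_mem_of_eval_mem V j W hW (f.coeff t) (hval t) e
  -- `f` comes from a monic polynomial over `V[z]`
  have hlift : f ∈ Polynomial.lifts (MvPolynomial.map V.subtype : MvPolynomial (Fin m) V →+* A) := by
    rw [Polynomial.lifts_iff_coeff_lifts]
    intro t
    have := (MvPolynomial.mem_range_map_iff_coeffs_subset (f := V.subtype) (x := f.coeff t)).2 (by
      intro y hy
      rw [MvPolynomial.coeffs] at hy
      simp only [Finset.coe_image, Set.mem_image, Finset.mem_coe] at hy
      obtain ⟨e, -, rfl⟩ := hy
      exact ⟨⟨_, hcoef t e⟩, rfl⟩)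
    exact this
  obtain ⟨g, hg, -, hgm⟩ := Polynomial.lifts_and_natDegree_eq_and_monic hlift hfm
  refine ⟨g, hgm, ?_⟩
  have e1 : MvPolynomial.eval₂Hom (α.comp V.subtype) z =
      (MvPolynomial.eval₂Hom α z).comp (MvPolynomial.map V.subtype) := by
    refine RingHom.ext fun a => ?_
    rw [RingHom.comp_apply, MvPolynomial.coe_eval₂Hom, MvPolynomial.coe_eval₂Hom,
      MvPolynomial.eval₂_map]
  rw [e1, ← Polynomial.eval₂_map, hg]
  exact minpoly.aeval A b

end Pool.Agent.DIF
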